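import Pool.Agent.Helper676.GF2
import Pool.Agent.Helper676.GF7
import Pool.Agent.Helper676.GFH

set_option autoImplicit false

/-!
# MP_9ca4ac_an: no domain-independent pointwise bound for the polyharmonic Green function

For `m = 4`, `n = 22` the quantity `sup |G_m^Ω(x,y)| |x-y|^{n-2m}` over all open `Ω ⊆ ℝⁿ` and all
`x ≠ y` in `Ω` is infinite (the negated form of Q1).
-/

namespace Pool.Agent.Results.MP_9ca4ac_an.DomainDependence

open MeasureTheory Filter Topology Set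
open scoped ContDiff

/-- Euclidean space `ℝⁿ`. -/
abbrev E (n : ℕ) := EuclideanSpace ℝ (Fin n)

variable {n : ℕ}

/-- The Laplacian `Δu = ∑ᵢ ∂ᵢ∂ᵢu`. -/
noncomputable def lap (u : E n → ℝ) (x : E n) : ℝ :=
  ∑ i : Fin n, fderiv ℝ (fun y => fderiv ℝ u y (EuclideanSpace.single i 1)) x
    (EuclideanSpace.single i 1)

/-- The polyharmonic operator `(-Δ)^m`. -/
noncomputable def polyLap (m : ℕ) (u : E n → ℝ) : E n → ℝ :=
  (fun v x => -lap v x)^[m] u

/-- `φ ∈ C₀^∞(Ω)`. -/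
structure IsTest (Ω : Set (E n)) (φ : E n → ℝ) : Prop where
  smooth : ContDiff ℝ ∞ φ
  compact : HasCompactSupport φ
  supp : tsupport φ ⊆ Ω

/-- `u ∈ W̊^{m,2}(Ω)`, the completion of `C₀^∞(Ω)` in the norm `‖∇^m u‖_{L²}` (a space of functions
when `n > 2m`): `u` is the `L¹_loc(Ω)` limit of a sequence in `C₀^∞(Ω)` which is Cauchy in that
norm. -/
structure MemW0 (m : ℕ) (Ω : Set (E n)) (u : E n → ℝ) : Prop where
  locInt : LocallyIntegrableOn u Ω
  limit : ∃ φ : ℕ → E n → ℝ, (∀ j, IsTest Ω (φ j)) ∧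
    (∀ ε > 0, ∃ j₀, ∀ j ≥ j₀, ∀ k ≥ j₀,
      ∫ x, ‖iteratedFDeriv ℝ m (fun z => φ j z - φ k z) x‖ ^ 2 ≤ ε) ∧
    ∀ L, IsCompact L → L ⊆ Ω → Tendsto (fun j => ∫ x in L, |φ j x - u x|) atTop (𝓝 0)

/-- `(-Δ)^m u = f` weakly in `Ω`. -/
def WeakSol (m : ℕ) (Ω : Set (E n)) (f u : E n → ℝ) : Prop :=
  ∀ ψ, IsTest Ω ψ → ∫ x in Ω, u x * polyLap m ψ x = ∫ x in Ω, f x * ψ x

/-- `G` is the Green function of the Dirichlet problem for `(-Δ)^m` in `Ω`: it is the kernel of the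
solution operator, i.e. for every `f ∈ C₀^∞(Ω)` the function `u(x) = ∫_Ω G(x,y) f(y) dy` belongs to
`W̊^{m,2}(Ω)` and solves `(-Δ)^m u = f` weakly in `Ω`. -/
def IsGreen (m : ℕ) (Ω : Set (E n)) (G : E n → E n → ℝ) : Prop :=
  ∀ f, IsTest Ω f → MemW0 m Ω (fun x => ∫ y in Ω, G x y * f y) ∧
    WeakSol m Ω f (fun x => ∫ y in Ω, G x y * f y)

open Pool.Agent.Helper676

lemma lap_eq : (lap : (E n → ℝ) → E n → ℝ) = GF.lap := rfl

lemma lap_neg (u : E n → ℝ) : lap (fun x => -u x) = fun x => -lap u x := by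
  ext x
  unfold lap
  rw [← Finset.sum_neg_distrib]
  apply Finset.sum_congr rfl
  intro i _
  have h1 : (fun y => fderiv ℝ (fun x => -u x) y (EuclideanSpace.single i 1)) =
      fun y => -(fderiv ℝ u y (EuclideanSpace.single i 1)) := by
    ext y
    rw [fderiv_fun_neg]
    rfl
  rw [h1, fderiv_fun_neg]
  rfl

lemma polyLap_four (u : E n → ℝ) : polyLap 4 u = GF.lap4 u := by
  have e : polyLap 4 u = fun x => -lap (fun x => -lap (fun x => -lap (fun x => -lap u x) x) x) x :=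
    rfl
  rw [e, lap_neg (lap fun x => -lap (fun x => -lap u x) x)]
  simp only [neg_neg]
  rw [lap_neg (lap u)]
  simp only [neg_neg]
  rfl

lemma nat_le (k : ℕ) : (k : ℕ∞ω) ≤ ∞ := by exact_mod_cast le_top

lemma four_le : ((4 : ℕ) : ℕ∞ω) ≤ ∞ := nat_le 4

lemma test_sq {φ : E 22 → ℝ} (hφ : ContDiff ℝ ∞ φ) (hc : HasCompactSupport φ) :
    Integrable (fun x => ‖iteratedFDeriv ℝ 4 φ x‖ ^ 2) := by
  apply Continuous.integrable_of_hasCompactSupport
  · exact (hφ.continuous_iteratedFDeriv (m := 4) four_le).norm.pow 2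
  · have h1 : HasCompactSupport (fun x => ‖iteratedFDeriv ℝ 4 φ x‖) := (hc.iteratedFDeriv 4).norm
    exact h1.comp_left (g := fun t : ℝ => t ^ 2) (by norm_num)

lemma toSol {Ω : Set (E 22)} {f u : E 22 → ℝ} (h1 : MemW0 4 Ω u) (h2 : WeakSol 4 Ω f u) :
    GF.Sol Ω f u := by
  refine ⟨h1.locInt, ?_, ?_⟩
  · obtain ⟨φ, hφ, hC, hL⟩ := h1.limit
    obtain ⟨j₀, hj₀⟩ := hC 1 one_pos
    refine ⟨fun j => φ (j + j₀), (22 ^ 2) ^ 2 * (2 * 1 +
      2 * ∫ x, ‖iteratedFDeriv ℝ 4 (φ j₀) x‖ ^ 2), ?_, ?_, ?_⟩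
    · exact fun j => ⟨(hφ _).smooth, (hφ _).compact, (hφ _).supp⟩
    · intro j
      have h3 := hj₀ (j + j₀) (by omega) j₀ le_rfl
      have hs : ContDiff ℝ ∞ (fun z => φ (j + j₀) z - φ j₀ z) :=
        (hφ _).smooth.sub (hφ _).smooth
      have hc : HasCompactSupport (fun z => φ (j + j₀) z - φ j₀ z) :=
        (hφ _).compact.sub (hφ _).compact
      have hi1 := test_sq hs hc
      have hi2 := test_sq (hφ j₀).smooth (hφ j₀).compact
      have hle : ∀ x, (GF.lap (GF.lap (φ (j + j₀))) x) ^ 2 ≤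
          (22 ^ 2) ^ 2 * (2 * ‖iteratedFDeriv ℝ 4 (fun z => φ (j + j₀) z - φ j₀ z) x‖ ^ 2 +
            2 * ‖iteratedFDeriv ℝ 4 (φ j₀) x‖ ^ 2) := by
        intro x
        have h4 := GF.lap2_le (hφ (j + j₀)).smooth x
        have h5 : ‖iteratedFDeriv ℝ 4 (φ (j + j₀)) x‖ ≤
            ‖iteratedFDeriv ℝ 4 (fun z => φ (j + j₀) z - φ j₀ z) x‖ +
              ‖iteratedFDeriv ℝ 4 (φ j₀) x‖ := by
          have e : φ (j + j₀) = (fun z => φ (j + j₀) z - φ j₀ z) + φ j₀ := by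
            ext z; simp
          have hd1 : ContDiffAt ℝ (4 : ℕ) (fun z => φ (j + j₀) z - φ j₀ z) x :=
            hs.contDiffAt.of_le four_le
          have hd2 : ContDiffAt ℝ (4 : ℕ) (φ j₀) x :=
            (hφ j₀).smooth.contDiffAt.of_le four_le
          have h6 := iteratedFDeriv_add_apply hd1 hd2
          rw [← e] at h6
          rw [h6]
          exact norm_add_le _ _
        obtain ⟨A, hA⟩ : ∃ A, A = ‖iteratedFDeriv ℝ 4 (fun z => φ (j + j₀) z - φ j₀ z) x‖ :=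
          ⟨_, rfl⟩
        obtain ⟨B, hB⟩ : ∃ B, B = ‖iteratedFDeriv ℝ 4 (φ j₀) x‖ := ⟨_, rfl⟩
        obtain ⟨T, hT⟩ : ∃ T, T = ‖iteratedFDeriv ℝ 4 (φ (j + j₀)) x‖ := ⟨_, rfl⟩
        have hT0 : 0 ≤ T := by rw [hT]; positivity
        rw [← hA, ← hB, ← hT] at h5
        rw [← hT] at h4
        rw [← hA, ← hB]
        push_cast at h4
        calc (GF.lap (GF.lap (φ (j + j₀))) x) ^ 2 = |GF.lap (GF.lap (φ (j + j₀))) x| ^ 2 :=
              (sq_abs _).symm
          _ ≤ (22 ^ 2 * T) ^ 2 := by gcongr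
          _ = (22 ^ 2) ^ 2 * T ^ 2 := by ring
          _ ≤ (22 ^ 2) ^ 2 * (2 * A ^ 2 + 2 * B ^ 2) := by
              gcongr
              nlinarith [sq_nonneg (A - B)]
      calc ∫ x, (GF.lap (GF.lap (φ (j + j₀))) x) ^ 2
          ≤ ∫ x, (22 ^ 2) ^ 2 *
            (2 * ‖iteratedFDeriv ℝ 4 (fun z => φ (j + j₀) z - φ j₀ z) x‖ ^ 2 +
            2 * ‖iteratedFDeriv ℝ 4 (φ j₀) x‖ ^ 2) := by
            apply integral_mono_of_nonneg
            · exact Eventually.of_forall fun x => sq_nonneg _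
            · exact ((hi1.const_mul 2).add (hi2.const_mul 2)).const_mul _
            · exact Eventually.of_forall hle
        _ = (22 ^ 2) ^ 2 *
            (2 * (∫ x, ‖iteratedFDeriv ℝ 4 (fun z => φ (j + j₀) z - φ j₀ z) x‖ ^ 2) +
            2 * ∫ x, ‖iteratedFDeriv ℝ 4 (φ j₀) x‖ ^ 2) := by
            rw [integral_const_mul, integral_add (hi1.const_mul 2) (hi2.const_mul 2),
              integral_const_mul, integral_const_mul]
        _ ≤ _ := by gcongr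
    · intro L hLc hLΩ
      exact (hL L hLc hLΩ).comp (tendsto_add_atTop_nat j₀)
  · intro ψ hψ hc hs
    have := h2 ψ ⟨hψ, hc, hs⟩
    rwa [polyLap_four] at this

/-- **Negative answer to Q1.** There are integers `m > 2`, `n ≥ 2m+3` (namely `m = 4`, `n = 22`)
such that for every constant `C` there is an open set `Ω ⊆ ℝⁿ` whose Green function `G` violates
`|G(x,y)| ≤ C |x-y|^{2m-n}` at some pair of points `x ≠ y` of `Ω`. -/
theorem result : ∃ m n : ℕ, 2 < m ∧ 2 * m + 3 ≤ n ∧ ∀ C : ℝ,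
    ∃ Ω : Set (E n), IsOpen Ω ∧ ∀ G : E n → E n → ℝ, IsGreen m Ω G →
      ∃ x ∈ Ω, ∃ y ∈ Ω, x ≠ y ∧ C * ‖x - y‖ ^ (2 * (m : ℤ) - n) < |G x y| := by
  refine ⟨4, 22, by norm_num, by norm_num, ?_⟩
  intro C
  by_contra hcon
  push Not at hcon
  obtain ⟨C', hC'⟩ : ∃ C' : ℝ, C' = max C 1 := ⟨_, rfl⟩
  have hC1 : 0 < C' := by rw [hC']; exact lt_max_of_lt_right one_pos
  have hCC : C ≤ C' := by rw [hC']; exact le_max_left _ _
  obtain ⟨s, hs1, hs2, hs⟩ := GF.exists_exponent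
  have hx0 : ‖(EuclideanSpace.single 0 1 : E 22)‖ = 1 := by simp
  obtain ⟨f, Φc, V, τ, Vm, hτ, hf, hfc, hf0, hΦ, hΦc, hV0, hVm, hg, hsep, hlt⟩ :=
    GF.choose_data (GF.Rc 1 s) s.re 114912000 hs1 hs2 (by norm_num) (GF.contDiffOn_Rc 1 s)
      (fun x hx => GF.lap4_Rc hs hx) (GF.Rc_bound s) (EuclideanSpace.single 0 1) hx0
      (by simp [GF.Rc, GF.Gc]) C' hC1
  have hstar := GF.star hτ hC1.le hf hfc hf0 hΦ hΦc hV0 hVm hg hsep (by
    intro Ω hΩo hfΩ
    obtain ⟨G, hG, hGb⟩ := hcon Ω hΩo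
    obtain ⟨h1, h2⟩ := hG f ⟨hf, hfc, hfΩ⟩
    refine ⟨_, toSol h1 h2, ?_⟩
    intro x hx
    have hint : Integrable (fun y => ((‖x - y‖ ^ 2) ^ 7)⁻¹ * f y) :=
      GF.cv_int (fun z : E 22 => ((‖z‖ ^ 2) ^ 7)⁻¹) GF.ker_li f hf.continuous hfc x
    calc |∫ y in Ω, G x y * f y| ≤ ∫ y in Ω, ‖G x y * f y‖ := by
          rw [← Real.norm_eq_abs]; exact norm_integral_le_integral_norm _
      _ ≤ ∫ y in Ω, C' * (((‖x - y‖ ^ 2) ^ 7)⁻¹ * f y) := by
          apply integral_mono_of_nonneg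
          · exact Eventually.of_forall fun y => norm_nonneg _
          · exact (hint.const_mul C').integrableOn
          · have hne : ∀ᵐ y : E 22 ∂(volume.restrict Ω), y ≠ x := by
              apply ae_restrict_of_ae
              rw [ae_iff]; simp
            filter_upwards [hne, ae_restrict_mem hΩo.measurableSet] with y hy1 hy2
            rw [norm_mul, Real.norm_eq_abs, Real.norm_eq_abs, abs_of_nonneg (hf0 y), ← mul_assoc]
            apply mul_le_mul_of_nonneg_right _ (hf0 y)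
            have h3 := hGb x hx y hy2 (Ne.symm hy1)
            have h4 : ‖x - y‖ ^ (2 * ((4 : ℕ) : ℤ) - ((22 : ℕ) : ℤ)) = ((‖x - y‖ ^ 2) ^ 7)⁻¹ := by
              rw [← pow_mul]
              norm_num
            rw [h4] at h3
            exact h3.trans (by gcongr)
      _ ≤ ∫ y, C' * (((‖x - y‖ ^ 2) ^ 7)⁻¹ * f y) := by
          apply setIntegral_le_integral (hint.const_mul C')
          exact Eventually.of_forall fun y => by
            have := hf0 y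
            show 0 ≤ C' * (((‖x - y‖ ^ 2) ^ 7)⁻¹ * f y)
            positivity
      _ = C' * ∫ y, ((‖x - y‖ ^ 2) ^ 7)⁻¹ * f y := integral_const_mul _ _)
  exact absurd hstar (not_le.2 hlt)

end Pool.Agent.Results.MP_9ca4ac_an.DomainDependence
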